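import Pool.Agent.N623.CS.Stm

/-!
# Project CS (MP_2823fe_lc), leaf WORD: the infinite Carlson–Simpson lemma for left variable
words, from the ultrafilters of `S_ULT`
-/

set_option autoImplicit false

namespace Pool.Agent.N644.CS

open Set Pool.Agent.N623.CS

theorem word_core (k : ℕ) (a0 : Fin k) (e : Ultrafilter (List (Option (Fin k))))
    (f : Fin k → Ultrafilter (List (Fin k)))
    (hf : ∀ a, f a = e.map (fun w => w.map (fun o => o.getD a)))
    (he : {w : List (Option (Fin k)) | ∃ w', w = none :: w'} ∈ e)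
    (hs : ∀ (a b : Fin k) (s : Set (List (Fin k))), s ∈ f a →
      {x | {y | x ++ y ∈ s} ∈ f b} ∈ f a)
    (C : Set (List (Fin k))) (hC : C ∈ f a0) :
    ∃ (u : List (Fin k)) (w : ℕ → List (Option (Fin k))),
      ∀ (a : ℕ → Fin k) (j : ℕ), word u w a j ∈ C := by
  classical
  set C0 : Set (List (Fin k)) := C ∩ ⋂ b : Fin k, {x | {y | x ++ y ∈ C} ∈ f b} with hC0
  have hmem : ∀ s, s ∈ C0 ↔ s ∈ C ∧ ∀ b, {y | s ++ y ∈ C} ∈ f b := by
    intro s
    rw [hC0]
    simp [Set.mem_iInter]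
  have h0 : C0 ∈ f a0 := by
    refine Filter.inter_mem hC ?_
    exact Filter.iInter_mem.2 fun b => hs a0 b C hC
  obtain ⟨u, hu⟩ := Ultrafilter.nonempty_of_mem h0
  -- the extension property
  have hext : ∀ s ∈ C0, ∀ a : Fin k, {x | s ++ x ∈ C0} ∈ f a := by
    intro s hsC a
    have hD : {y | s ++ y ∈ C} ∈ f a := ((hmem s).1 hsC).2 a
    have h1 : {x | s ++ x ∈ C} ∩ ⋂ b : Fin k, {x | {y | x ++ y ∈ {z | s ++ z ∈ C}} ∈ f b} ∈ f a :=
      Filter.inter_mem hD (Filter.iInter_mem.2 fun b => hs a b _ hD)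
    refine Filter.mem_of_superset h1 ?_
    rintro x ⟨hx1, hx2⟩
    refine (hmem _).2 ⟨hx1, fun b => ?_⟩
    have h2 := Set.mem_iInter.1 hx2 b
    have h3 : {y | s ++ x ++ y ∈ C} = {y | x ++ y ∈ {z | s ++ z ∈ C}} := by
      ext y
      simp only [Set.mem_ofPred_eq, List.append_assoc]
    rw [h3]
    exact h2
  have hext' : ∀ s ∈ C0, ∀ a : Fin k, {w : List (Option (Fin k)) |
      s ++ w.map (fun o => o.getD a) ∈ C0} ∈ e := by
    intro s hsC a
    have h1 := hext s hsC a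
    rw [hf a] at h1
    exact h1
  have hstep : ∀ F : {F : Finset (List (Fin k)) // ∀ s ∈ F, s ∈ C0},
      ∃ w' : List (Option (Fin k)), ∀ s ∈ F.1, ∀ a : Fin k,
        s ++ (a :: w'.map (fun o => o.getD a)) ∈ C0 := by
    rintro ⟨F, hF⟩
    have h1 : {w : List (Option (Fin k)) | ∃ w', w = none :: w'} ∩
        ⋂ s : F, ⋂ a : Fin k, {w : List (Option (Fin k)) |
          s.1 ++ w.map (fun o => o.getD a) ∈ C0} ∈ e := by
      refine Filter.inter_mem he ?_
      exact Filter.iInter_mem.2 fun s => Filter.iInter_mem.2 fun a => hext' s.1 (hF s.1 s.2) a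
    obtain ⟨w, ⟨w', rfl⟩, hw⟩ := Ultrafilter.nonempty_of_mem h1
    refine ⟨w', fun s hs' a => ?_⟩
    have h2 := Set.mem_iInter.1 (Set.mem_iInter.1 hw ⟨s, hs'⟩) a
    simpa using h2
  choose step hstep' using hstep
  let next : {F : Finset (List (Fin k)) // ∀ s ∈ F, s ∈ C0} →
      {F : Finset (List (Fin k)) // ∀ s ∈ F, s ∈ C0} := fun F =>
    ⟨(F.1 ×ˢ (Finset.univ : Finset (Fin k))).image
      (fun p => p.1 ++ (p.2 :: (step F).map (fun o => o.getD p.2))), by
        intro s hs'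
        obtain ⟨p, hp, rfl⟩ := Finset.mem_image.1 hs'
        exact hstep' F p.1 (Finset.mem_product.1 hp).1 p.2⟩
  let st : ℕ → {F : Finset (List (Fin k)) // ∀ s ∈ F, s ∈ C0} := fun j =>
    Nat.rec ⟨{u}, fun s hs' => by rw [Finset.mem_singleton.1 hs']; exact hu⟩
      (fun _ F => next F) j
  have hst : ∀ j, st (j + 1) = next (st j) := fun j => rfl
  refine ⟨u, fun j => step (st j), fun a j => ?_⟩
  have hin : ∀ j, word u (fun j => step (st j)) a j ∈ (st j).1 := by
    intro j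
    induction j with
    | zero => exact Finset.mem_singleton.2 rfl
    | succ j ih =>
      rw [hst]
      refine Finset.mem_image.2 ⟨(word u (fun j => step (st j)) a j, a j), ?_, rfl⟩
      exact Finset.mem_product.2 ⟨ih, Finset.mem_univ _⟩
  exact ((hmem _).1 ((st j).2 _ (hin j))).1

theorem t_word : S_ULT → S_WORD := by
  intro hU k hk O
  obtain ⟨e, f, hf, he, hs⟩ := hU k hk
  rcases (f ⟨0, hk⟩).mem_or_compl_mem O with h | h
  · obtain ⟨u, w, h1⟩ := word_core k ⟨0, hk⟩ e f hf he hs O h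
    exact ⟨u, w, Or.inl h1⟩
  · obtain ⟨u, w, h1⟩ := word_core k ⟨0, hk⟩ e f hf he hs Oᶜ h
    exact ⟨u, w, Or.inr h1⟩

end Pool.Agent.N644.CS
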